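import Pool.Agent.K7.H73.BD.Hall

set_option autoImplicit false

/-!
Bottleneck deviation (`B^*(d)`): every instance with at most three letters has `B^*(d) < 3/4`
(sharp form `B^*(d) ≤ 3/4 - 1/(4D)`), strict form of the general bound for all `n ≥ 3`, and
infinitely many instances with `B^*(d) ≥ 3/4` for every `n ≥ 4`.
-/

namespace Pool.Agent.Results.MP_3a77f1_co.AtMostThreeLetters

open Finset Pool.Agent.K7.H73.BD

/-- the bottleneck (maximum) deviation of the sequence `s` for `d` (of length `D`) -/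
noncomputable def maxDev {n D : ℕ} (d : Fin n → ℕ) (s : Fin D → Fin n) : ℝ :=
  ⨆ p : Fin n × Fin D,
    |(occ s p.1 ((p.2 : ℕ) + 1) : ℝ) - (((p.2 : ℕ) + 1 : ℕ) : ℝ) * ((d p.1 : ℝ) / D)|

/-- the optimal bottleneck deviation `B^*(d)` -/
noncomputable def Bstar {n : ℕ} (d : Fin n → ℕ) : ℝ :=
  sInf {b : ℝ | ∃ s : Fin (∑ i, d i) → Fin n, IsSeq d s ∧ b = maxDev d s}

theorem maxDev_nonneg {n D : ℕ} (d : Fin n → ℕ) (s : Fin D → Fin n) : 0 ≤ maxDev d s :=
  Real.iSup_nonneg (fun _ => abs_nonneg _)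

theorem le_maxDev {n D : ℕ} (d : Fin n → ℕ) (s : Fin D → Fin n) (i : Fin n) (k : ℕ)
    (hk : 1 ≤ k) (hkD : k ≤ D) :
    |(occ s i k : ℝ) - k * ((d i : ℝ) / D)| ≤ maxDev d s := by
  have h := le_ciSup (f := fun p : Fin n × Fin D =>
    |(occ s p.1 ((p.2 : ℕ) + 1) : ℝ) - (((p.2 : ℕ) + 1 : ℕ) : ℝ) * ((d p.1 : ℝ) / D)|)
    (Set.finite_range _).bddAbove (i, ⟨k - 1, by omega⟩)
  have e : k - 1 + 1 = k := by omega
  simp only [e] at h
  exact h

theorem maxDev_le {n D : ℕ} (d : Fin n → ℕ) (s : Fin D → Fin n) (b : ℝ) (hn : 0 < n) (hD : 0 < D)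
    (h : ∀ (i : Fin n) (k : ℕ), k ≤ D → |(occ s i k : ℝ) - k * ((d i : ℝ) / D)| ≤ b) :
    maxDev d s ≤ b := by
  have : Nonempty (Fin n × Fin D) := ⟨(⟨0, hn⟩, ⟨0, hD⟩)⟩
  apply ciSup_le
  intro p
  exact h p.1 ((p.2 : ℕ) + 1) (by have := p.2.2; omega)

theorem bdd {n : ℕ} (d : Fin n → ℕ) :
    BddBelow {b : ℝ | ∃ s : Fin (∑ i, d i) → Fin n, IsSeq d s ∧ b = maxDev d s} :=
  ⟨0, by rintro b ⟨s, _, rfl⟩; exact maxDev_nonneg d s⟩

theorem sum_pos' {n : ℕ} (d : Fin n → ℕ) (hn : 1 ≤ n) (hpos : ∀ i, 0 < d i) : 0 < ∑ i, d i := by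
  have : Nonempty (Fin n) := ⟨⟨0, hn⟩⟩
  exact Finset.sum_pos (fun i _ => hpos i) Finset.univ_nonempty

/-- upper bound in terms of `δ`, in the integral form -/
theorem Bstar_le {n : ℕ} (d : Fin n → ℕ) (hn : 1 ≤ n) (hpos : ∀ i, 0 < d i) (m : ℕ) (hm : 3 ≤ m)
    (h1 : (n - 1 : ℝ) * (2 * (1 / m)) ≤ 1) (h2 : n * (1 / (m : ℝ)) < 1) :
    Bstar d ≤ 1 - 1 / m - 1 / (m * (∑ i, d i : ℕ)) := by
  have hD := sum_pos' d hn hpos
  set D := ∑ i, d i with hDdef
  have hm0 : (3 : ℝ) ≤ m := by exact_mod_cast hm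
  have hm' : (0 : ℝ) < m := by linarith
  have hD' : (0 : ℝ) < D := by exact_mod_cast hD
  have hδ : (1 / (m : ℝ)) < 1 / 2 := by
    rw [div_lt_div_iff₀ hm' (by norm_num)]; linarith
  obtain ⟨s, hs, hdev⟩ := exists_seq d D (1 / m) hD rfl hpos h1 h2 (by positivity) hδ
  refine le_trans (csInf_le (bdd d) ⟨s, hs, rfl⟩) (maxDev_le d s _ hn hD ?_)
  intro i k hk
  have h3 := hdev i k hk
  -- integrality
  have e1 : (occ s i k : ℝ) - k * ((d i : ℝ) / D) =
      (((occ s i k : ℤ) * D - k * d i : ℤ) : ℝ) / D := by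
    push_cast
    field_simp
  rw [e1, abs_div, abs_of_pos hD'] at h3 ⊢
  set z : ℤ := (occ s i k : ℤ) * D - k * d i with hz
  have h4 : |(z : ℝ)| < (1 - 1 / m) * D := by
    rwa [div_lt_iff₀ hD'] at h3
  have h5 : (m : ℝ) * |(z : ℝ)| < (m - 1) * D := by
    have := mul_lt_mul_of_pos_left h4 hm'
    have e : (m : ℝ) * ((1 - 1 / m) * D) = (m - 1) * D := by
      field_simp
    linarith
  have h6 : (m : ℤ) * |z| < (m - 1) * D := by
    have : (((m : ℤ) * |z| : ℤ) : ℝ) < (((m - 1) * D : ℤ) : ℝ) := by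
      push_cast
      exact h5
    exact_mod_cast this
  have h7 : (m : ℤ) * |z| + 1 ≤ (m - 1) * D := by omega
  have h8 : (m : ℝ) * |(z : ℝ)| + 1 ≤ (m - 1) * D := by
    have : (((m : ℤ) * |z| + 1 : ℤ) : ℝ) ≤ (((m - 1) * D : ℤ) : ℝ) := by exact_mod_cast h7
    push_cast at this
    exact this
  have e2 : 1 - 1 / (m : ℝ) - 1 / (m * (D : ℝ)) = ((m - 1) * D - 1) / (m * D) := by
    field_simp
  rw [e2, div_le_div_iff₀ hD' (by positivity)]
  nlinarith

/-- the first `k` places carry `k` letters -/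
theorem sum_occ {n D : ℕ} (s : Fin D → Fin n) (k : ℕ) (hk : k ≤ D) : ∑ i, occ s i k = k := by
  classical
  have h1 : (Finset.univ.filter (fun t : Fin D => (t : ℕ) < k)).card = k := by
    have : (Finset.univ.filter (fun t : Fin D => (t : ℕ) < k)).card = (Finset.range k).card := by
      apply Finset.card_bij (fun (t : Fin D) _ => (t : ℕ))
      · intro t ht; simpa using ht
      · intro a _ b _ h; exact Fin.ext h
      · intro b hb
        rw [Finset.mem_range] at hb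
        exact ⟨⟨b, by omega⟩, by simpa using hb, rfl⟩
    rw [this, Finset.card_range]
  have h2 : ∀ i, occ s i k =
      ((Finset.univ.filter (fun t : Fin D => (t : ℕ) < k)).filter (fun t => s t = i)).card := by
    intro i
    unfold occ
    rw [Finset.filter_filter]
  simp_rw [h2]
  rw [← Finset.card_eq_sum_card_fiberwise (fun t _ => Finset.mem_coe.2 (Finset.mem_univ (s t)))]
  exact h1

theorem occ_mono {n D : ℕ} (s : Fin D → Fin n) (i : Fin n) {k l : ℕ} (h : k ≤ l) :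
    occ s i k ≤ occ s i l := by
  apply Finset.card_le_card
  intro t ht
  simp only [Finset.mem_filter, Finset.mem_univ, true_and] at ht ⊢
  exact ⟨by omega, ht.2⟩

theorem le_Bstar {n : ℕ} (d : Fin n → ℕ) (hn : 1 ≤ n) (hpos : ∀ i, 0 < d i) (b : ℝ)
    (h : ∀ s : Fin (∑ i, d i) → Fin n, IsSeq d s → b ≤ maxDev d s) : b ≤ Bstar d := by
  have hD := sum_pos' d hn hpos
  obtain ⟨s, hs, -⟩ := exists_seq d (∑ i, d i) 0 hD rfl hpos (by simp) (by simp) le_rfl
    (by norm_num)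
  unfold Bstar
  refine le_csInf ⟨maxDev d s, s, hs, rfl⟩ ?_
  rintro b' ⟨s', hs', rfl⟩
  exact h s' hs'

/-- the congruence family -/
theorem family_aux {n : ℕ} (d : Fin n → ℕ) (c : ℕ) (hn : 2 ≤ n)
    (hc : Nat.Coprime c n) (hd : ∀ i, d i ≡ c [MOD n]) (D : ℕ) (hDdef : D = ∑ i, d i)
    (hD : 0 < D) (s : Fin D → Fin n) : 1 - 1 / (n : ℝ) ≤ maxDev d s := by
  by_contra hcon
  push Not at hcon
  have hnD : n ∣ D := by
    have : D ≡ ∑ _i : Fin n, c [MOD n] := by
      rw [hDdef]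
      exact Nat.ModEq.sum (fun i _ => hd i)
    rw [Finset.sum_const, Finset.card_univ, Fintype.card_fin, smul_eq_mul] at this
    have h2 : n * c ≡ 0 [MOD n] := (Nat.modEq_zero_iff_dvd).2 (Nat.dvd_mul_right n c)
    exact (Nat.modEq_zero_iff_dvd).1 (this.trans h2)
  obtain ⟨M, hM⟩ := hnD
  have hMpos : 0 < M := by
    rcases Nat.eq_zero_or_pos M with h | h
    · rw [h] at hM; omega
    · exact h
  -- `b c ≡ n - 1`
  obtain ⟨b, hb, hbn⟩ : ∃ b, b * c ≡ n - 1 [MOD n] ∧ b < n := by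
    obtain ⟨u, hu⟩ := Nat.exists_mul_mod_eq_one_of_coprime hc (by omega)
    refine ⟨(u * (n - 1)) % n, ?_, Nat.mod_lt _ (by omega)⟩
    have h1 : (u * (n - 1)) % n ≡ u * (n - 1) [MOD n] := Nat.mod_modEq _ _
    have h2 : c * u ≡ 1 [MOD n] := by
      have h3 : (c * u) % n = 1 := hu.2
      have h4 : 1 % n = 1 := Nat.mod_eq_of_lt (by omega)
      exact h3.trans h4.symm
    have h5 : (u * (n - 1)) % n * c ≡ u * (n - 1) * c [MOD n] := h1.mul_right c
    have h6 : u * (n - 1) * c = (c * u) * (n - 1) := by ring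
    rw [h6] at h5
    have h7 := h5.trans (h2.mul_right (n - 1))
    rwa [one_mul] at h7
  have hb0 : 0 < b := by
    rcases Nat.eq_zero_or_pos b with h | h
    · rw [h, zero_mul] at hb
      have h8 : (n - 1) % n = n - 1 := Nat.mod_eq_of_lt (by omega)
      have h9 : 0 % n = (n - 1) % n := hb
      rw [h8, Nat.zero_mod] at h9
      omega
    · exact h
  have hz : ∀ i, ∃ z : ℕ, b * d i = n * z + (n - 1) := by
    intro i
    have h1 : b * d i ≡ n - 1 [MOD n] := ((hd i).mul_left b).trans hb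
    refine ⟨b * d i / n, ?_⟩
    have h2 : (b * d i) % n = n - 1 := by
      have h8 : (n - 1) % n = n - 1 := Nat.mod_eq_of_lt (by omega)
      exact Eq.trans h1 h8
    have := Nat.div_add_mod (b * d i) n
    omega
  choose z hz using hz
  have hk1 : 1 ≤ b * M := Nat.mul_pos hb0 hMpos
  have hkD : b * M ≤ D := by
    rw [hM]; exact Nat.mul_le_mul_right M hbn.le
  have hn' : (0 : ℝ) < n := by
    have : 0 < n := by omega
    exact_mod_cast this
  have hM' : (0 : ℝ) < M := by exact_mod_cast hMpos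
  have hocc : ∀ i, z i + 1 ≤ occ s i (b * M) := by
    intro i
    have h1 := (le_maxDev d s i (b * M) hk1 hkD).trans_lt hcon
    have e1 : ((b * M : ℕ) : ℝ) * ((d i : ℝ) / (D : ℝ)) = z i + (1 - 1 / (n : ℝ)) := by
      have e2 : (D : ℝ) = n * M := by exact_mod_cast hM
      have e3 : (b : ℝ) * d i = n * z i + (n - 1) := by
        have := hz i
        have h4 : ((b * d i : ℕ) : ℝ) = ((n * z i + (n - 1) : ℕ) : ℝ) := by exact_mod_cast this
        push_cast [show 1 ≤ n by omega] at h4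
        exact h4
      rw [e2]
      push_cast
      field_simp
      linarith
    rw [e1] at h1
    have h2 := (abs_lt.1 h1).1
    have h3 : (z i : ℝ) < occ s i (b * M) := by linarith
    exact_mod_cast h3
  have hsum := sum_occ s (b * M) hkD
  have h1 : ∑ i, (z i + 1) ≤ b * M := by
    rw [← hsum]
    exact Finset.sum_le_sum (fun i _ => hocc i)
  have h2 : n * (b * M) = n * (∑ i, z i) + n * (n - 1) := by
    have : ∑ i, b * d i = ∑ i, (n * z i + (n - 1)) := Finset.sum_congr rfl (fun i _ => hz i)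
    rw [← Finset.mul_sum, ← hDdef, hM, Finset.sum_add_distrib, ← Finset.mul_sum] at this
    simp only [Finset.sum_const, Finset.card_univ, Fintype.card_fin, smul_eq_mul] at this
    rw [← this]; ring
  have h3 : b * M = (∑ i, z i) + (n - 1) := by
    have h5 : n * (b * M) = n * ((∑ i, z i) + (n - 1)) := by rw [h2]; ring
    exact Nat.eq_of_mul_eq_mul_left (by omega) h5
  rw [Finset.sum_add_distrib] at h1
  simp only [Finset.sum_const, Finset.card_univ, Fintype.card_fin, smul_eq_mul, mul_one] at h1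
  omega

theorem triple_aux (c D : ℕ) (hD : D = 4 * c + 3) (s : Fin D → Fin 3) :
    3 / 4 - 1 / (4 * (D : ℝ)) ≤ maxDev ![2 * c + 1, 2 * c + 1, 1] s := by
  by_contra hcon
  push Not at hcon
  have hDr : (D : ℝ) = 4 * c + 3 := by rw [hD]; push_cast; ring
  have hD0 : (0 : ℝ) < 4 * (c : ℝ) + 3 := by positivity
  have hp : ∀ i : Fin 3, i ≠ 2 → occ s i (2 * c + 1) ≤ c := by
    intro i hi
    have h1 := (le_maxDev ![2 * c + 1, 2 * c + 1, 1] s i (2 * c + 1) (by omega)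
      (by omega)).trans_lt hcon
    have e : ((![2 * c + 1, 2 * c + 1, 1] i : ℕ) : ℝ) = 2 * c + 1 := by
      fin_cases i <;> simp at hi ⊢
    rw [e, hDr] at h1
    have h2 := (abs_lt.1 h1).2
    have e2 : 3 / 4 - 1 / (4 * (4 * (c : ℝ) + 3)) + ((2 * c + 1 : ℕ) : ℝ) *
        ((2 * (c : ℝ) + 1) / (4 * c + 3)) = c + 1 := by
      push_cast
      field_simp
      ring
    have h3 : (occ s i (2 * c + 1) : ℝ) < c + 1 := by linarith
    have h4 : occ s i (2 * c + 1) < c + 1 := by exact_mod_cast h3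
    omega
  have hq : ∀ i : Fin 3, i ≠ 2 → c + 1 ≤ occ s i (2 * c + 2) := by
    intro i hi
    have h1 := (le_maxDev ![2 * c + 1, 2 * c + 1, 1] s i (2 * c + 2) (by omega)
      (by omega)).trans_lt hcon
    have e : ((![2 * c + 1, 2 * c + 1, 1] i : ℕ) : ℝ) = 2 * c + 1 := by
      fin_cases i <;> simp at hi ⊢
    rw [e, hDr] at h1
    have h2 := (abs_lt.1 h1).1
    have e2 : ((2 * c + 2 : ℕ) : ℝ) * ((2 * (c : ℝ) + 1) / (4 * c + 3)) -
        (3 / 4 - 1 / (4 * (4 * (c : ℝ) + 3))) = c := by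
      push_cast
      field_simp
      ring
    have h3 : (c : ℝ) < occ s i (2 * c + 2) := by linarith
    have h4 : c < occ s i (2 * c + 2) := by exact_mod_cast h3
    omega
  have s1 := sum_occ s (2 * c + 1) (by omega)
  have s2 := sum_occ s (2 * c + 2) (by omega)
  rw [Fin.sum_univ_three] at s1 s2
  have a0 := hp 0 (by decide)
  have a1 := hp 1 (by decide)
  have b0 := hq 0 (by decide)
  have b1 := hq 1 (by decide)
  have m := occ_mono s 2 (show 2 * c + 1 ≤ 2 * c + 2 by omega)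
  omega

/-- Results on the optimal bottleneck deviation `B^*(d)` of an instance `d` with `n` letters,
`D = ∑ d_i`. -/
theorem result :
    -- every instance with at most three letters has `B^*(d) < 3/4`
    (∀ (n : ℕ) (d : Fin n → ℕ), 1 ≤ n → n ≤ 3 → (∀ i, 0 < d i) →
      Bstar d ≤ 3 / 4 - 1 / (4 * (∑ i, d i : ℕ)) ∧ Bstar d < 3 / 4) ∧
    -- equality for `(a, a, 1)`, `a` odd
    (∀ c : ℕ, Bstar ![2 * c + 1, 2 * c + 1, 1] = 3 / 4 - 1 / (4 * ((4 * c + 3 : ℕ) : ℝ))) ∧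
    -- the bound for all `n ≥ 3`
    (∀ (n : ℕ) (d : Fin n → ℕ), 3 ≤ n → (∀ i, 0 < d i) →
      Bstar d ≤ 1 - 1 / (2 * ((n : ℝ) - 1)) - 1 / (2 * ((n : ℝ) - 1) * (∑ i, d i : ℕ))) ∧
    -- for every `n ≥ 4`, a congruence family of instances with `B^*(d) ≥ 1 - 1/n ≥ 3/4`
    (∀ (n c : ℕ) (d : Fin n → ℕ), 4 ≤ n → Nat.Coprime c n → (∀ i, 0 < d i) →
      (∀ i, d i ≡ c [MOD n]) → 1 - 1 / (n : ℝ) ≤ Bstar d ∧ 3 / 4 ≤ Bstar d) := by
  have part1 : ∀ (n : ℕ) (d : Fin n → ℕ), 1 ≤ n → n ≤ 3 → (∀ i, 0 < d i) →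
      Bstar d ≤ 3 / 4 - 1 / (4 * (∑ i, d i : ℕ)) := by
    intro n d h1 h3 hpos
    have hn3 : (n : ℝ) ≤ 3 := by exact_mod_cast h3
    have := Bstar_le d h1 hpos 4 (by norm_num) (by push_cast; linarith) (by push_cast; linarith)
    push_cast at this ⊢
    linarith
  refine ⟨?_, ?_, ?_, ?_⟩
  · intro n d h1 h3 hpos
    have h := part1 n d h1 h3 hpos
    refine ⟨h, lt_of_le_of_lt h ?_⟩
    have hD := sum_pos' d h1 hpos
    have : (0 : ℝ) < ((∑ i, d i : ℕ) : ℝ) := by exact_mod_cast hD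
    have : 0 < 1 / (4 * ((∑ i, d i : ℕ) : ℝ)) := by positivity
    linarith
  · intro c
    have hpos : ∀ i, 0 < (![2 * c + 1, 2 * c + 1, 1] : Fin 3 → ℕ) i := by
      intro i; fin_cases i <;> simp
    have hsum : ∑ i, (![2 * c + 1, 2 * c + 1, 1] : Fin 3 → ℕ) i = 4 * c + 3 := by
      rw [Fin.sum_univ_three]; simp; ring
    apply le_antisymm
    · have := part1 3 ![2 * c + 1, 2 * c + 1, 1] (by norm_num) le_rfl hpos
      rwa [hsum] at this
    · apply le_Bstar _ (by norm_num) hpos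
      intro s _
      have h := triple_aux c _ hsum s
      have e' : 3 / 4 - 1 / (4 * ((4 * c + 3 : ℕ) : ℝ)) = 3 / 4 -
          1 / (4 * ((∑ i, (![2 * c + 1, 2 * c + 1, 1] : Fin 3 → ℕ) i : ℕ) : ℝ)) := by
        rw [hsum]
      rw [e']
      exact h
  · intro n d h3 hpos
    have hn : (3 : ℝ) ≤ n := by exact_mod_cast h3
    have e : ((2 * (n - 1) : ℕ) : ℝ) = 2 * ((n : ℝ) - 1) := by
      push_cast [show 1 ≤ n by omega]; ring
    have hn1 : (n : ℝ) - 1 ≠ 0 := by
      have : (0 : ℝ) < (n : ℝ) - 1 := by linarith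
      exact this.ne'
    have e3 : ((n : ℝ) - 1) * (2 * (1 / (2 * ((n : ℝ) - 1)))) = 1 := by field_simp
    have := Bstar_le d (by omega) hpos (2 * (n - 1)) (by omega)
      (by rw [e]; exact e3.le) (by
        rw [e, mul_one_div, div_lt_one (by linarith)]; linarith)
    rw [e] at this
    exact this
  · intro n c d h4 hc hpos hd
    have hn : (4 : ℝ) ≤ n := by exact_mod_cast h4
    have h : 1 - 1 / (n : ℝ) ≤ Bstar d := by
      apply le_Bstar d (by omega) hpos
      intro s _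
      exact family_aux d c (by omega) hc hd _ rfl (sum_pos' d (by omega) hpos) s
    refine ⟨h, le_trans ?_ h⟩
    have : 1 / (n : ℝ) ≤ 1 / 4 := by
      apply one_div_le_one_div_of_le (by norm_num) hn
    linarith

end Pool.Agent.Results.MP_3a77f1_co.AtMostThreeLetters
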