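import Pool.Agent.K7.H1.BD.Crit4
import Pool.Agent.K7.H1.BD.Cen

/-!
# MP_3a77f1_co: a criterion for `B^*(d) < 3/4`, explicit for four letters; central windows

For every number of letters there is a criterion in terms of sets of at least three letters and
short windows; for four letters it becomes a congruence condition and one inequality for each letter
and each short window. Windows in the middle of the sequence give closed necessary conditions on the
demands for every number of letters. (The case of at most three letters is in `AtMostThreeLetters`.)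
`¬ Below d` says that no sequence for `d` has bottleneck deviation less than `3/4`, that is
`B^*(d) ≥ 3/4`.
-/

set_option autoImplicit false

namespace Pool.Agent.Results.MP_3a77f1_co.FourLetters

open Finset Pool.Agent.K7.H1.BD

theorem result :
    -- four letters
    (∀ d : Fin 4 → ℕ, (∀ i, 0 < d i) → univ.gcd d = 1 →
      (Below d ↔ ¬ (∀ i, d i % 4 = d 0 % 4 ∧ d i % 2 = 1) ∧
        ∀ i, ∀ a b : ℕ, a < b → b ≤ total d → 2 * (b - a) * d i ≤ total d →
          ∑ j ∈ univ.erase i, (lo d j b - hi d j a) ≤ (b : ℤ) - a)) ∧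
    -- the criterion for every number of letters
    (∀ (n : ℕ) (d : Fin n → ℕ), 1 ≤ n → (∀ i, 0 < d i) →
      (Below d ↔ ∀ I : Finset (Fin n), 3 ≤ #I → ∀ a b : ℕ, a < b → b ≤ total d →
        2 * (b - a) * ∑ i ∈ Iᶜ, d i ≤ (#I - 2) * total d →
        ∑ i ∈ I, (lo d i b - hi d i a) ≤ (b : ℤ) - a)) ∧
    -- three odd demands between `D / 4` and `D / 2`, `D` even
    (∀ (n : ℕ) (d : Fin n → ℕ), (∀ i, 0 < d i) → total d % 2 = 0 →
      3 ≤ #{i | d i % 2 = 1 ∧ total d ≤ 4 * d i ∧ 2 * d i < total d} → ¬ Below d) ∧
    -- windows of length `l` in the middle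
    (∀ (n : ℕ) (d : Fin n → ℕ), (∀ i, 0 < d i) → ∀ (l : ℕ) (I : Finset (Fin n)),
      l ≤ total d → total d % 2 = l % 2 →
      (∀ i ∈ I, total d ≤ 2 * (l * d i % total d) ∧ (l * d i / total d) % 2 ≠ d i % 2) →
      l < ∑ i ∈ I, (l * d i / total d + 1) → ¬ Below d) := by
  refine ⟨fun d hd hg => below_four_iff hd hg, fun n d h1 hd => ?_,
    fun _ _ hd hpar h => not_below_three hd hpar h,
    fun _ _ hd l I hl hpar hI hsum => not_below_central hd l I hl hpar hI hsum⟩
  exact below_iff_window (⟨0, h1⟩ : Fin n) hd

end Pool.Agent.Results.MP_3a77f1_co.FourLetters
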