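import Pool.Agent.K7.H73.BD.FourW
import Pool.Agent.K7.H73.BD.Gen
import Pool.Agent.Results.MP_3a77f1_co.AtMostThreeLetters

set_option autoImplicit false

/-!
Four letters: outside an explicit window condition the instances with `B^*(d) < 3/4` are
determined by a congruence modulo four.
-/

namespace Pool.Agent.Results.MP_3a77f1_co.FourLettersClosed

open Finset Pool.Agent.K7.H73.BD Pool.Agent.Results.MP_3a77f1_co.AtMostThreeLetters

/-- for some letter `k` and some `l` one has `l d_k / D < 1/2`, the three numbers `l d_i / D`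
(`i ≠ k`) have fractional parts at least `1/2`, and their integral parts add up to `l - 2` -/
def Window (d : Fin 4 → ℕ) : Prop :=
  ∃ (l : ℕ) (k : Fin 4), 2 * l * d k < ∑ i, d i ∧
    (∀ i, i ≠ k → ∑ j, d j ≤ 2 * ((l * d i) % ∑ j, d j)) ∧
    ∑ i ∈ univ.erase k, (l * d i) / (∑ j, d j) + 2 = l

/-- after division by the greatest common divisor all demands are congruent to the same odd
number modulo four -/
def Cong (d : Fin 4 → ℕ) : Prop :=
  ∃ c : ℕ, Odd c ∧ ∀ i, d i / Finset.univ.gcd d ≡ c [MOD 4]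

/-- the critical place -/
def Crit (d : Fin 4 → ℕ) (D : ℕ) : Prop :=
  ∃ Q : ℕ, Q ≤ D ∧ ∀ i, ∃ z : ℕ, 4 * (Q * d i) = (4 * z + 3) * D

theorem crit_le (d : Fin 4 → ℕ) (D : ℕ) (hD : 0 < D) (hsum : ∑ i, d i = D) (h : Crit d D)
    (s : Fin D → Fin 4) : 3 / 4 ≤ maxDev d s := by
  obtain ⟨Q, hQ, hz⟩ := h
  choose z hz using hz
  by_contra hcon
  push Not at hcon
  have hD' : (0 : ℝ) < D := by exact_mod_cast hD
  have hQ1 : 1 ≤ Q := by
    rcases Nat.eq_zero_or_pos Q with h | h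
    · have := hz 0
      rw [h] at this
      have h2 : 0 < (4 * z 0 + 3) * D := Nat.mul_pos (by omega) hD
      omega
    · exact h
  have hocc : ∀ i, z i + 1 ≤ occ s i Q := by
    intro i
    have h1 := (le_maxDev d s i Q hQ1 hQ).trans_lt hcon
    have e1 : (Q : ℝ) * ((d i : ℝ) / (D : ℝ)) = z i + 3 / 4 := by
      have h2 : (4 * ((Q : ℝ) * d i)) = (4 * z i + 3) * D := by exact_mod_cast hz i
      field_simp
      linarith
    rw [e1] at h1
    have h2 := (abs_lt.1 h1).1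
    have h3 : (z i : ℝ) < occ s i Q := by linarith
    exact_mod_cast h3
  have hsum' := sum_occ s Q hQ
  have h1 : ∑ i, (z i + 1) ≤ Q := by
    conv_rhs => rw [← hsum']
    exact Finset.sum_le_sum (fun i _ => hocc i)
  have h2 : 4 * (Q * D) = (4 * (∑ i, z i) + 12) * D := by
    have h3 : ∑ i, 4 * (Q * d i) = ∑ i, (4 * z i + 3) * D :=
      Finset.sum_congr rfl (fun i _ => hz i)
    rw [← Finset.mul_sum, ← Finset.mul_sum, hsum, ← Finset.sum_mul, Finset.sum_add_distrib,
      ← Finset.mul_sum] at h3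
    simpa using h3
  have h3 : 4 * Q = 4 * (∑ i, z i) + 12 := by
    have : (4 * Q) * D = (4 * (∑ i, z i) + 12) * D := by rw [← h2]; ring
    exact Nat.eq_of_mul_eq_mul_right hD this
  rw [Finset.sum_add_distrib] at h1
  simp only [Finset.sum_const, Finset.card_univ, Fintype.card_fin, smul_eq_mul, mul_one] at h1
  omega

theorem gcd_facts (d : Fin 4 → ℕ) (hpos : ∀ i, 0 < d i) :
    0 < Finset.univ.gcd d ∧ (∀ i, d i = Finset.univ.gcd d * (d i / Finset.univ.gcd d)) ∧
      Finset.univ.gcd (fun i => d i / Finset.univ.gcd d) = 1 := by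
  have h0 : Finset.univ.gcd d ∣ d 0 := Finset.gcd_dvd (Finset.mem_univ 0)
  refine ⟨Nat.pos_of_dvd_of_pos h0 (hpos 0), fun i => ?_, ?_⟩
  · exact (Nat.mul_div_cancel' (Finset.gcd_dvd (Finset.mem_univ i))).symm
  · exact Finset.gcd_div_eq_one (Finset.mem_univ 0) (hpos 0).ne'

theorem cong_of_crit (d : Fin 4 → ℕ) (hpos : ∀ i, 0 < d i) (h : Crit d (∑ i, d i)) : Cong d := by
  obtain ⟨Q, hQ, hz⟩ := h
  obtain ⟨hg, hde, hg1⟩ := gcd_facts d hpos
  unfold Cong
  set g := Finset.univ.gcd d with hgdef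
  set e : Fin 4 → ℕ := fun i => d i / g with he
  set D' := ∑ i, e i with hD'
  have hDD : ∑ i, d i = g * D' := by
    rw [hD', Finset.mul_sum]
    exact Finset.sum_congr rfl (fun i _ => hde i)
  have hepos : ∀ i, 0 < e i := fun i => by
    have h1 := hpos i
    rw [hde i] at h1
    exact Nat.pos_of_mul_pos_left h1
  have hD'pos : 0 < D' := Finset.sum_pos (fun i _ => hepos i) Finset.univ_nonempty
  choose z hz using hz
  have h1 : ∀ i, 4 * Q * e i = (4 * z i + 3) * D' := by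
    intro i
    have h2 := hz i
    rw [hDD, hde i] at h2
    have h3 : g * (4 * Q * e i) = g * ((4 * z i + 3) * D') := by
      change 4 * (Q * (g * e i)) = (4 * z i + 3) * (g * D') at h2
      linarith [h2]
    exact Nat.eq_of_mul_eq_mul_left hg h3
  have h2 : D' ∣ 4 * Q := by
    have h3 : D' ∣ Finset.univ.gcd (fun i => 4 * Q * e i) :=
      Finset.dvd_gcd (fun i _ => ⟨4 * z i + 3, by rw [h1 i]; ring⟩)
    rw [Finset.gcd_mul_left, hg1] at h3
    simpa using h3
  obtain ⟨b, hb⟩ := h2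
  have h4 : ∀ i, b * e i = 4 * z i + 3 := by
    intro i
    have h5 := h1 i
    rw [hb] at h5
    have : D' * (b * e i) = D' * (4 * z i + 3) := by rw [← mul_assoc, h5]; ring
    exact Nat.eq_of_mul_eq_mul_left hD'pos this
  have h5 : ∀ i, (b * e i) % 4 = 3 := fun i => by rw [h4 i]; omega
  have hbodd : b % 4 = 1 ∨ b % 4 = 3 := by
    have h6 := h5 0
    rw [Nat.mul_mod] at h6
    have h7 : b % 4 < 4 := Nat.mod_lt _ (by norm_num)
    have h8 : e 0 % 4 < 4 := Nat.mod_lt _ (by norm_num)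
    have h9 : ∀ x < 4, ∀ y < 4, x * y % 4 = 3 → (x = 1 ∨ x = 3) := by decide
    exact h9 _ h7 _ h8 h6
  refine ⟨4 - b % 4, ?_, fun i => ?_⟩
  · rcases hbodd with h | h <;> rw [h] <;> decide
  · change (e i) % 4 = (4 - b % 4) % 4
    have h6 := h5 i
    rw [Nat.mul_mod] at h6
    have h8 : e i % 4 < 4 := Nat.mod_lt _ (by norm_num)
    rcases hbodd with h | h <;> rw [h] at h6 ⊢ <;> omega

theorem crit_of_cong (d : Fin 4 → ℕ) (hpos : ∀ i, 0 < d i) (h : Cong d) : Crit d (∑ i, d i) := by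
  obtain ⟨c, hc, hcong⟩ := h
  obtain ⟨hg, hde, -⟩ := gcd_facts d hpos
  set g := Finset.univ.gcd d with hgdef
  set e : Fin 4 → ℕ := fun i => d i / g with he
  set D' := ∑ i, e i with hD'
  have hDD : ∑ i, d i = g * D' := by
    rw [hD', Finset.mul_sum]
    exact Finset.sum_congr rfl (fun i _ => hde i)
  have hemod : ∀ i, e i % 4 = c % 4 := fun i => hcong i
  have h4 : 4 ∣ D' := by
    have h1 := hemod 0
    have h2 := hemod 1
    have h3 := hemod 2
    have h5 := hemod 3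
    rw [hD', Fin.sum_univ_four]
    omega
  obtain ⟨M, hM⟩ := h4
  have hcodd : c % 4 = 1 ∨ c % 4 = 3 := by
    obtain ⟨m, hm⟩ := hc; omega
  have hb : (4 - c % 4) ≤ 4 := by omega
  refine ⟨(4 - c % 4) * M, ?_, fun i => ?_⟩
  · rw [hDD, hM]
    calc (4 - c % 4) * M ≤ 4 * M := Nat.mul_le_mul_right M hb
      _ ≤ g * (4 * M) := Nat.le_mul_of_pos_left _ hg
  · have h6 : ((4 - c % 4) * e i) % 4 = 3 := by
      rw [Nat.mul_mod, hemod i]
      rcases hcodd with h | h <;> rw [h]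
    refine ⟨((4 - c % 4) * e i) / 4, ?_⟩
    have h7 : (4 - c % 4) * e i = 4 * (((4 - c % 4) * e i) / 4) + 3 := by
      have := Nat.div_add_mod ((4 - c % 4) * e i) 4
      omega
    set w := ((4 - c % 4) * e i) / 4 with hw
    rw [hDD, hM, hde i]
    change 4 * ((4 - c % 4) * M * (g * e i)) = (4 * w + 3) * (g * (4 * M))
    rw [← h7]
    ring

/-- A closed criterion for a class of four-letter instances. -/
theorem result :
    -- the criterion outside the window condition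
    (∀ d : Fin 4 → ℕ, (∀ i, 0 < d i) → ¬ Window d → (Bstar d < 3 / 4 ↔ ¬ Cong d)) ∧
    -- in particular when the two smallest demands are equal
    (∀ d : Fin 4 → ℕ, (∀ i, 0 < d i) → (∃ j k, j ≠ k ∧ d j = d k ∧ ∀ i, d k ≤ d i) →
      (Bstar d < 3 / 4 ↔ ¬ Cong d)) := by
  have part3 : ∀ d : Fin 4 → ℕ, (∀ i, 0 < d i) → Cong d → 3 / 4 ≤ Bstar d := by
    intro d hpos hc
    apply le_Bstar d (by norm_num) hpos
    intro s _
    exact crit_le d _ (sum_pos' d (by norm_num) hpos) rfl (crit_of_cong d hpos hc) s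
  have part1 : ∀ d : Fin 4 → ℕ, (∀ i, 0 < d i) → ¬ Window d → (Bstar d < 3 / 4 ↔ ¬ Cong d) := by
    intro d hpos hw
    constructor
    · intro h hc
      exact absurd h (not_lt.mpr (part3 d hpos hc))
    · intro hnc
      have hD := sum_pos' d (by norm_num) hpos
      have H2 : ¬ Crit d (∑ i, d i) := fun h => hnc (cong_of_crit d hpos h)
      obtain ⟨s, hs, hdev⟩ := exists_seq' d (∑ i, d i) (1 / 4) hD rfl
        (fun P Q hPQ hQ => core4w d (∑ i, d i) hD rfl hpos hw H2 P Q hPQ hQ) (by norm_num)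
        (by norm_num)
      have hne : Nonempty (Fin 4 × Fin (∑ i, d i)) := ⟨(0, ⟨0, hD⟩)⟩
      refine lt_of_le_of_lt (csInf_le (bdd d) ⟨s, hs, rfl⟩) ?_
      obtain ⟨p, hp⟩ := exists_eq_ciSup_of_finite (f := fun p : Fin 4 × Fin (∑ i, d i) =>
        |(occ s p.1 ((p.2 : ℕ) + 1) : ℝ) -
          (((p.2 : ℕ) + 1 : ℕ) : ℝ) * ((d p.1 : ℝ) / (∑ i, d i : ℕ))|)
      have h1 := hdev p.1 ((p.2 : ℕ) + 1) (by have := p.2.2; omega)
      have h2 : maxDev d s = |(occ s p.1 ((p.2 : ℕ) + 1) : ℝ) -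
          (((p.2 : ℕ) + 1 : ℕ) : ℝ) * ((d p.1 : ℝ) / (∑ i, d i : ℕ))| := hp.symm
      rw [h2]
      linarith
  refine ⟨part1, ?_⟩
  rintro d hpos ⟨j, k, hjk, hd, hmin⟩
  apply part1 d hpos
  rintro ⟨l, m, h1, h2, -⟩
  have hle : ∀ i, i ≠ m → ∑ j, d j ≤ 2 * (l * d i) := fun i hi =>
    (h2 i hi).trans (Nat.mul_le_mul_left 2 (Nat.mod_le _ _))
  by_cases hm : k = m
  · have h3 := hle j (fun h => hjk (h.trans hm.symm))
    rw [hd, hm] at h3
    rw [mul_assoc] at h1
    omega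
  · have h3 := hle k hm
    have h4 := Nat.mul_le_mul_left (2 * l) (hmin m)
    rw [mul_assoc, mul_assoc] at h4
    rw [mul_assoc] at h1
    omega

end Pool.Agent.Results.MP_3a77f1_co.FourLettersClosed
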