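import Pool.Agent.Results.MP_3a77f1_co.FourLettersClosed

set_option autoImplicit false

/-!
Instances with many demands equal to one: a necessary condition for `B^*(d) < 3/4` for every
number of letters, and the complete list of the instances `(a, 1, …, 1)` with `B^*(d) < 3/4`.
-/

namespace Pool.Agent.Results.MP_3a77f1_co.UnitDemands

open Finset Pool.Agent.K7.H73.BD Pool.Agent.Results.MP_3a77f1_co.AtMostThreeLetters
open Pool.Agent.Results.MP_3a77f1_co.FourLettersClosed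

theorem necessary_aux {n : ℕ} (d : Fin n → ℕ) (D : ℕ) (hsum : ∑ i, d i = D) (S : Finset (Fin n))
    (hS : ∀ i ∈ S, d i = 1) (hD : 4 ≤ D) (s : Fin D → Fin n) (h : maxDev d s < 3 / 4) :
    4 * S.card * (D / 4) < 3 * (n - S.card) * D := by
  classical
  set k := D / 4 with hk
  have hk1 : 1 ≤ k := by omega
  have hkD : k ≤ D := by omega
  have hk4 : 4 * k ≤ D := by omega
  have hD' : (0 : ℝ) < D := by
    have : 0 < D := by omega
    exact_mod_cast this
  have hdev : ∀ i, |(occ s i k : ℝ) - k * ((d i : ℝ) / D)| < 3 / 4 := fun i =>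
    (le_maxDev d s i k hk1 hkD).trans_lt h
  have h0 : ∀ i ∈ S, occ s i k = 0 := by
    intro i hi
    have h1 := (abs_lt.1 (hdev i)).2
    rw [hS i hi] at h1
    have h2 : (k : ℝ) * (((1 : ℕ) : ℝ) / D) ≤ 1 / 4 := by
      rw [mul_div_assoc', div_le_div_iff₀ hD' (by norm_num)]
      have : (4 : ℝ) * k ≤ D := by exact_mod_cast hk4
      push_cast
      linarith
    have h3 : (occ s i k : ℝ) < 1 := by linarith
    have h4 : occ s i k < 1 := by exact_mod_cast h3
    omega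
  have hs := sum_occ s k hkD
  have hsplit : ∑ i, occ s i k = ∑ i ∈ Sᶜ, occ s i k := by
    rw [← Finset.sum_add_sum_compl S, Finset.sum_eq_zero h0, zero_add]
  have hne : (Sᶜ).Nonempty := by
    rw [Finset.nonempty_iff_ne_empty]
    intro h1
    rw [hsplit, h1] at hs
    simp at hs
    omega
  have hcS : ((Sᶜ).card : ℝ) = (n : ℝ) - S.card := by
    rw [Finset.card_compl, Fintype.card_fin, Nat.cast_sub]
    exact (Finset.card_le_univ S).trans_eq (Fintype.card_fin n)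
  have hdS : (∑ i ∈ Sᶜ, (d i : ℝ)) = D - S.card := by
    have h1 : (∑ i, (d i : ℝ)) = D := by exact_mod_cast hsum
    rw [← Finset.sum_add_sum_compl S] at h1
    have h2 : (∑ i ∈ S, (d i : ℝ)) = S.card := by
      rw [Finset.sum_congr rfl (fun i hi => by rw [hS i hi])]
      simp
    linarith
  have h5 : (k : ℝ) < ∑ i ∈ Sᶜ, ((k : ℝ) * ((d i : ℝ) / D) + 3 / 4) := by
    have h6 : (k : ℝ) = ∑ i ∈ Sᶜ, (occ s i k : ℝ) := by
      rw [← Nat.cast_sum, ← hsplit, hs]
    rw [h6]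
    have h7 : ∀ i ∈ Sᶜ, (occ s i k : ℝ) < (k : ℝ) * ((d i : ℝ) / D) + 3 / 4 := fun i _ => by
      have := (abs_lt.1 (hdev i)).2
      linarith
    have h8 := Finset.sum_lt_sum_of_nonempty hne h7
    rw [← h6] at h8 ⊢
    exact h8
  rw [Finset.sum_add_distrib, ← Finset.mul_sum, ← Finset.sum_div, hdS, Finset.sum_const,
    nsmul_eq_mul, hcS] at h5
  have h6 : (k : ℝ) * D < k * (D - S.card) + ((n : ℝ) - S.card) * (3 / 4) * D := by
    have h7 := mul_lt_mul_of_pos_right h5 hD'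
    have e : (k * ((D - (S.card : ℝ)) / D) + ((n : ℝ) - S.card) * (3 / 4)) * D =
        k * (D - S.card) + ((n : ℝ) - S.card) * (3 / 4) * D := by
      field_simp
    rwa [e] at h7
  have h7 : (4 * (S.card : ℝ) * k) < 3 * ((n : ℝ) - S.card) * D := by nlinarith
  have h8 : ((n - S.card : ℕ) : ℝ) = (n : ℝ) - S.card := by
    rw [Nat.cast_sub]
    exact (Finset.card_le_univ S).trans_eq (Fintype.card_fin n)
  rw [← h8] at h7
  exact_mod_cast h7

theorem exists_of_lt {n : ℕ} (d : Fin n → ℕ) (hn : 1 ≤ n) (hpos : ∀ i, 0 < d i)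
    (h : Bstar d < 3 / 4) :
    ∃ s : Fin (∑ i, d i) → Fin n, IsSeq d s ∧ maxDev d s < 3 / 4 := by
  have hD := sum_pos' d hn hpos
  obtain ⟨s, hs, -⟩ := exists_seq d (∑ i, d i) 0 hD rfl hpos (by simp) (by simp) le_rfl
    (by norm_num)
  unfold Bstar at h
  have hne : {b : ℝ | ∃ s : Fin (∑ i, d i) → Fin n, IsSeq d s ∧ b = maxDev d s}.Nonempty :=
    ⟨maxDev d s, s, hs, rfl⟩
  obtain ⟨b, ⟨s', hs', hb'⟩, hb⟩ := exists_lt_of_csInf_lt hne h
  exact ⟨s', hs', hb' ▸ hb⟩

/-- upper bound from an explicit word, checked with integers -/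
theorem lt_of_word {n : ℕ} (d : Fin n → ℕ) (hn : 1 ≤ n) (D : ℕ) (hsum : ∑ i, d i = D)
    (hpos : 0 < D) (s : Fin D → Fin n) (hs : IsSeq d s)
    (h : ∀ (i : Fin n) (t : Fin D), 4 * D * occ s i ((t : ℕ) + 1) < 4 * ((t : ℕ) + 1) * d i + 3 * D ∧
      4 * ((t : ℕ) + 1) * d i < 4 * D * occ s i ((t : ℕ) + 1) + 3 * D) :
    Bstar d < 3 / 4 := by
  suffices key : maxDev d s < 3 / 4 by
    subst hsum
    exact lt_of_le_of_lt (csInf_le (bdd d) ⟨s, hs, rfl⟩) key
  have hne : Nonempty (Fin n × Fin D) := ⟨(⟨0, hn⟩, ⟨0, hpos⟩)⟩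
  obtain ⟨p, hp⟩ := exists_eq_ciSup_of_finite (f := fun p : Fin n × Fin D =>
    |(occ s p.1 ((p.2 : ℕ) + 1) : ℝ) - (((p.2 : ℕ) + 1 : ℕ) : ℝ) * ((d p.1 : ℝ) / D)|)
  have h2 : maxDev d s = |(occ s p.1 ((p.2 : ℕ) + 1) : ℝ) -
      (((p.2 : ℕ) + 1 : ℕ) : ℝ) * ((d p.1 : ℝ) / D)| := hp.symm
  rw [h2]
  have hD' : (0 : ℝ) < D := by exact_mod_cast hpos
  obtain ⟨h3, h4⟩ := h p.1 p.2
  have h3' : 4 * (D : ℝ) * occ s p.1 ((p.2 : ℕ) + 1) <
      4 * (((p.2 : ℕ) + 1 : ℕ) : ℝ) * d p.1 + 3 * D := by exact_mod_cast h3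
  have h4' : 4 * (((p.2 : ℕ) + 1 : ℕ) : ℝ) * d p.1 <
      4 * (D : ℝ) * occ s p.1 ((p.2 : ℕ) + 1) + 3 * D := by exact_mod_cast h4
  have e1 : (((p.2 : ℕ) + 1 : ℕ) : ℝ) * ((d p.1 : ℝ) / D) * D =
      (((p.2 : ℕ) + 1 : ℕ) : ℝ) * d p.1 := by field_simp
  rw [abs_lt]
  constructor
  · by_contra hcon
    push Not at hcon
    have := mul_le_mul_of_nonneg_right hcon hD'.le
    nlinarith
  · by_contra hcon
    push Not at hcon
    have := mul_le_mul_of_nonneg_right hcon hD'.le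
    nlinarith

theorem e1 : Bstar ![2, 1, 1, 1, 1] < 3 / 4 :=
  lt_of_word ![2, 1, 1, 1, 1] (by norm_num) 6 (by decide) (by norm_num)
    ![0, 1, 2, 3, 4, 0] (by unfold IsSeq; decide) (by decide)

theorem e2 : Bstar ![3, 1, 1, 1, 1] < 3 / 4 :=
  lt_of_word ![3, 1, 1, 1, 1] (by norm_num) 7 (by decide) (by norm_num)
    ![0, 1, 0, 2, 3, 4, 0] (by unfold IsSeq; decide) (by decide)

theorem e3 : Bstar ![7, 1, 1, 1, 1] < 3 / 4 :=
  lt_of_word ![7, 1, 1, 1, 1] (by norm_num) 11 (by decide) (by norm_num)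
    ![0, 0, 1, 0, 2, 0, 0, 3, 4, 0, 0] (by unfold IsSeq; decide) (by decide)

theorem e4 : Bstar ![2, 1, 1, 1, 1, 1] < 3 / 4 :=
  lt_of_word ![2, 1, 1, 1, 1, 1] (by norm_num) 7 (by decide) (by norm_num)
    ![0, 1, 2, 3, 4, 5, 0] (by unfold IsSeq; decide) (by decide)

/-- the instance `(a, 1, …, 1)` with `m` ones -/
def oneBig (a m : ℕ) : Fin (m + 1) → ℕ := Fin.cons a (fun _ : Fin m => 1)

theorem oneBig_sum (a m : ℕ) : ∑ i, oneBig a m i = a + m := by
  rw [Fin.sum_univ_succ]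
  simp [oneBig]

theorem oneBig_pos (a m : ℕ) (ha : 1 ≤ a) : ∀ i, 0 < oneBig a m i := by
  intro i
  refine Fin.cases ?_ (fun j => ?_) i
  · simp [oneBig]; omega
  · simp [oneBig]

theorem cong_iff (a : ℕ) : Cong (oneBig a 3) ↔ a % 4 = 1 := by
  have hg : Finset.univ.gcd (oneBig a 3) = 1 := by
    have : Finset.univ.gcd (oneBig a 3) ∣ oneBig a 3 1 := Finset.gcd_dvd (Finset.mem_univ _)
    have h1 : oneBig a 3 1 = 1 := rfl
    rw [h1] at this
    exact Nat.dvd_one.1 this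
  unfold Cong
  rw [hg]
  simp only [Nat.div_one]
  constructor
  · rintro ⟨c, -, h⟩
    have h0 : a % 4 = c % 4 := h 0
    have h1 : 1 % 4 = c % 4 := h 1
    omega
  · intro h
    refine ⟨1, by decide, ?_⟩
    intro i
    fin_cases i
    · exact h
    · rfl
    · rfl
    · rfl

/-- Results on instances with demands equal to one. -/
theorem result :
    -- necessary condition for every number of letters
    (∀ (n : ℕ) (d : Fin n → ℕ) (S : Finset (Fin n)), 1 ≤ n → (∀ i, 0 < d i) →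
      (∀ i ∈ S, d i = 1) → 4 ≤ ∑ i, d i → Bstar d < 3 / 4 →
      4 * S.card * ((∑ i, d i) / 4) < 3 * (n - S.card) * ∑ i, d i) ∧
    -- complete classification of the instances `(a, 1, …, 1)` with `m` ones
    (∀ a m : ℕ, 1 ≤ a → (Bstar (oneBig a m) < 3 / 4 ↔
      m ≤ 2 ∨ (m = 3 ∧ a % 4 ≠ 1) ∨ (m = 4 ∧ (a = 2 ∨ a = 3 ∨ a = 7)) ∨ (m = 5 ∧ a = 2))) := by
  have part1 : ∀ (n : ℕ) (d : Fin n → ℕ) (S : Finset (Fin n)), 1 ≤ n → (∀ i, 0 < d i) →
      (∀ i ∈ S, d i = 1) → 4 ≤ ∑ i, d i → Bstar d < 3 / 4 →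
      4 * S.card * ((∑ i, d i) / 4) < 3 * (n - S.card) * ∑ i, d i := by
    intro n d S hn hpos hS hD h
    obtain ⟨s, -, hs⟩ := exists_of_lt d hn hpos h
    exact necessary_aux d _ rfl S hS hD s hs
  refine ⟨part1, ?_⟩
  intro a m ha
  have hpos := oneBig_pos a m ha
  constructor
  · intro h
    rcases Nat.lt_or_ge m 3 with hm | hm
    · left; omega
    right
    rcases Nat.lt_or_ge m 4 with hm4 | hm4
    · left
      have hm3 : m = 3 := by omega
      subst hm3
      refine ⟨rfl, fun hc => ?_⟩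
      have h1 := (FourLettersClosed.result.2 (oneBig a 3) hpos
        ⟨1, 2, by decide, rfl, fun i => hpos i⟩).1 h
      exact h1 ((cong_iff a).2 hc)
    · right
      have h1 := part1 (m + 1) (oneBig a m) (Finset.univ.erase 0) (by omega) hpos (by
        intro i hi
        obtain ⟨j, rfl⟩ := Fin.exists_succ_eq_of_ne_zero (Finset.ne_of_mem_erase hi)
        simp [oneBig]) (by rw [oneBig_sum]; omega) h
      have hc : (Finset.univ.erase (0 : Fin (m + 1))).card = m := by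
        rw [Finset.card_erase_of_mem (Finset.mem_univ _)]; simp
      rw [hc, oneBig_sum] at h1
      have h2 : m + 1 - m = 1 := by omega
      rw [h2] at h1
      have h3 : (a + m) / 4 * 4 ≤ a + m := Nat.div_mul_le_self _ _
      have h4 : a + m < (a + m) / 4 * 4 + 4 := by omega
      set q := (a + m) / 4 with hq
      rcases Nat.lt_or_ge m 6 with hm6 | hm6
      · have : m = 4 ∨ m = 5 := by omega
        rcases this with rfl | rfl
        · left; omega
        · right; omega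
      · exfalso
        have h5 : 4 * 6 * q ≤ 4 * m * q := by
          apply Nat.mul_le_mul_right
          omega
        have h6 : 1 ≤ q := by omega
        omega
  · rintro (h | ⟨rfl, h⟩ | ⟨rfl, h⟩ | ⟨rfl, rfl⟩)
    · exact ((AtMostThreeLetters.result.1 (m + 1) (oneBig a m) (by omega) (by omega) hpos).2)
    · exact (FourLettersClosed.result.2 (oneBig a 3) hpos
        ⟨1, 2, by decide, rfl, fun i => hpos i⟩).2 (fun hc => h ((cong_iff a).1 hc))
    · rcases h with rfl | rfl | rfl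
      · have : oneBig 2 4 = ![2, 1, 1, 1, 1] := by decide
        rw [this]; exact e1
      · have : oneBig 3 4 = ![3, 1, 1, 1, 1] := by decide
        rw [this]; exact e2
      · have : oneBig 7 4 = ![7, 1, 1, 1, 1] := by decide
        rw [this]; exact e3
    · have : oneBig 2 5 = ![2, 1, 1, 1, 1, 1] := by decide
      rw [this]; exact e4

end Pool.Agent.Results.MP_3a77f1_co.UnitDemands
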